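import Pool.Agent.J4H68.CG.Stm
import Pool.Agent.J4H31.SP.Acp

/-!
# Project CG, piece ACE: the edges of the graph of a 3-CNF are trees of bounded depth
-/

set_option autoImplicit false

namespace Pool.Agent.J4H35.CG

open Finset Pool.Agent.J4H64.SS Pool.Agent.J4H95.SP Pool.Agent.J4H68.CG Pool.Agent.J4H31.SP

section General

variable {I : Type} {w : ℕ}

theorem cst {d : ℕ} (hd : 2 ≤ d) (P : Prop) : AC w d (fun _ : I → Bool => P) := by
  by_cases hP : P
  · exact congr (tru hd) (fun x => by simp [hP])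
  · exact congr (fls (by omega)) (fun x => by simp [hP])

/-- at least `j` elements of `S` are present -/
theorem atl [Fintype I] [DecidableEq I] (hw : Fintype.card I ≤ w) (S : Finset I) (j : ℕ) (hj : Fintype.card I ^ j ≤ w) :
    AC w 6 (fun x : I → Bool => j ≤ (S.filter (fun c => x c = true)).card) := by
  have hc : Fintype.card {T : Finset I // T.card = j} ≤ w := by
    refine le_trans ?_ hj
    rw [Fintype.card_finset_len]
    exact Nat.choose_le_pow _ _
  have h1 := exi (d := 5) hc (fun T x => T.1 ⊆ S ∧ ∀ c, c ∈ T.1 → x c = true) (fun T => by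
    refine cand (by norm_num) _ ?_
    refine all (d := 2) hw _ fun c => ?_
    exact cimp (le_refl 2) _ (AC.inp 2 c))
  refine congr h1 (fun x => ?_)
  constructor
  · intro h
    obtain ⟨T, hT, hTc⟩ := Finset.exists_subset_card_eq h
    refine ⟨⟨T, hTc⟩, fun c hc => (Finset.mem_filter.mp (hT hc)).1, fun c hc => (Finset.mem_filter.mp (hT hc)).2⟩
  · rintro ⟨T, hTS, hT⟩
    rw [← T.2]
    apply Finset.card_le_card
    intro c hc
    exact Finset.mem_filter.mpr ⟨hTS hc, hT c hc⟩

/-- exactly `j` elements of `S` are present -/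
theorem exa [Fintype I] [DecidableEq I] (h2 : 2 ≤ w) (hw : Fintype.card I ≤ w) (S : Finset I) (j : ℕ) (hj : Fintype.card I ^ j ≤ w)
    (hj' : Fintype.card I ^ (j + 1) ≤ w) :
    AC w 10 (fun x : I → Bool => (S.filter (fun c => x c = true)).card = j) := by
  have h1 := andd (d := 7) h2 (mono (atl hw S j hj) (by norm_num)) (not (atl hw S (j + 1) hj'))
  refine congr h1 (fun x => ?_)
  omega

end General

theorem card_Cl (n : ℕ) (hn : 1 ≤ n) : Fintype.card (Cl n) ≤ (2 * n) ^ 5 := by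
  have h1 : Fintype.card (Cl n) ≤ ∑ j ∈ range 4, Fintype.card {T : Finset (Fin n × Bool) // T.card = j} := by
    have h2 : Fintype.card (Cl n) = (univ.filter (fun T : Finset (Fin n × Bool) => T.card ≤ 3)).card :=
      Fintype.card_subtype _
    rw [h2]
    have h3 : univ.filter (fun T : Finset (Fin n × Bool) => T.card ≤ 3) ⊆
        (range 4).biUnion (fun j => univ.filter (fun T : Finset (Fin n × Bool) => T.card = j)) := by
      intro T hT
      rw [mem_biUnion]
      exact ⟨T.card, mem_range.mpr (by have := (mem_filter.mp hT).2; omega), by simp⟩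
    refine (card_le_card h3).trans (card_biUnion_le.trans ?_)
    apply Finset.sum_le_sum
    intro j _
    rw [Fintype.card_subtype]
  refine h1.trans ?_
  have h4 : ∀ j, Fintype.card {T : Finset (Fin n × Bool) // T.card = j} ≤ (2 * n) ^ j := by
    intro j
    rw [Fintype.card_finset_len]
    refine (Nat.choose_le_pow _ _).trans (le_of_eq ?_)
    congr 1
    simp [mul_comm]
  have h5 : ∑ j ∈ range 4, Fintype.card {T : Finset (Fin n × Bool) // T.card = j} ≤ ∑ j ∈ range 4, (2 * n) ^ 3 := by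
    apply Finset.sum_le_sum
    intro j hj
    exact (h4 j).trans (Nat.pow_le_pow_right (by omega) (by have := mem_range.mp hj; omega))
  refine h5.trans ?_
  rw [sum_const, card_range, smul_eq_mul]
  calc 4 * (2 * n) ^ 3 ≤ (2 * n) ^ 2 * (2 * n) ^ 3 := by
        apply Nat.mul_le_mul_right
        nlinarith
    _ = (2 * n) ^ 5 := by ring

theorem slot {n w : ℕ} (h2 : 2 ≤ w) (hw : Fintype.card (Cl n) ≤ w) (l : Fin n × Bool) (i : ℕ)
    (hi : Fintype.card (Cl n) ^ i ≤ w) (hi' : Fintype.card (Cl n) ^ (i + 1) ≤ w) (c : Cl n) :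
    AC w 13 (fun x : Cl n → Bool => Slot x l i c) := by
  unfold Slot
  refine cand (by norm_num) _ ?_
  refine andd (d := 10) h2 (AC.inp 10 c) ?_
  refine congr (exa h2 hw (univ.filter (fun c' : Cl n => l ∈ c'.1 ∧ num c' < num c)) i hi hi') (fun x => ?_)
  have : univ.filter (fun c' : Cl n => l ∈ c'.1 ∧ num c' < num c ∧ x c' = true) =
      (univ.filter (fun c' : Cl n => l ∈ c'.1 ∧ num c' < num c)).filter (fun c' => x c' = true) := by
    ext c'; simp [and_assoc]
  rw [this]

theorem edge {n k w : ℕ} (h2 : 2 ≤ w) (hw : Fintype.card (Cl n) ≤ w)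
    (hi : ∀ i : Fin k, Fintype.card (Cl n) ^ (i : ℕ) ≤ w) (hi' : ∀ i : Fin k, Fintype.card (Cl n) ^ ((i : ℕ) + 1) ≤ w)
    (t : Cl n → Fin 3 → Fin n × Bool) (u v : V n k) :
    AC w 17 (fun x : Cl n → Bool => E t x u v) := by
  rcases u with i | l | g <;> rcases v with j | m | g'
  · exact cst (by norm_num) (i ≠ j)
  · exact cst (by norm_num) False
  · exact cst (by norm_num) False
  · exact mono (orr (d := 2) h2 (cst (by norm_num) (j = 2)) (AC.inp 2 (⟨∅, by simp⟩ : Cl n))) (by norm_num)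
  · exact cst (by norm_num) (l.1 = m.1 ∧ l.2 = true ∧ m.2 = false)
  · exact cst (by norm_num) False
  · exact cst (by norm_num) (g.2.2 = 5 ∧ j ≠ 1)
  · refine exi (d := 16) hw (fun (c : Cl n) (x : Cl n → Bool) => Slot x g.1 g.2.1 c ∧
      ((g.2.2 = 0 ∧ m = t c 0) ∨ (g.2.2 = 1 ∧ m = t c 1) ∨ (g.2.2 = 4 ∧ m = t c 2))) fun c => ?_
    exact andd (d := 13) h2 (slot h2 hw g.1 g.2.1 (hi _) (hi' _) c) (cst (by norm_num) _)
  · exact cst (by norm_num) (g.1 = g'.1 ∧ g.2.1 = g'.2.1 ∧ inner g.2.2 g'.2.2)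

theorem t_ACE : S_ACE := by
  intro k
  refine ⟨5 * (k + 2), 18, by omega, ?_⟩
  intro n hn t u v
  have h0 : 2 ≤ 2 * n := by omega
  have hpow : ∀ j, j ≤ k + 2 → Fintype.card (Cl n) ^ j ≤ (2 * n) ^ (5 * (k + 2)) := by
    intro j hj
    calc Fintype.card (Cl n) ^ j ≤ ((2 * n) ^ 5) ^ j := Nat.pow_le_pow_left (card_Cl n hn) j
      _ = (2 * n) ^ (5 * j) := by rw [← pow_mul]
      _ ≤ _ := Nat.pow_le_pow_right (by omega) (by omega)
  have hw2 : 2 ≤ (2 * n) ^ (5 * (k + 2)) := by
    calc 2 ≤ (2 * n) ^ 1 := by rw [pow_one]; exact h0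
      _ ≤ _ := Nat.pow_le_pow_right (by omega) (by omega)
  have hw : Fintype.card (Cl n) ≤ (2 * n) ^ (5 * (k + 2)) := by
    have := hpow 1 (by omega)
    rwa [pow_one] at this
  have hi : ∀ i : Fin k, Fintype.card (Cl n) ^ (i : ℕ) ≤ (2 * n) ^ (5 * (k + 2)) := fun i => hpow _ (by have := i.2; omega)
  have hi' : ∀ i : Fin k, Fintype.card (Cl n) ^ ((i : ℕ) + 1) ≤ (2 * n) ^ (5 * (k + 2)) := fun i => hpow _ (by have := i.2; omega)
  exact orr (d := 17) hw2 (edge hw2 hw hi hi' t u v) (edge hw2 hw hi hi' t v u)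

end Pool.Agent.J4H35.CG
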